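import Pool.Agent.P.MP_c18ddb_co.Upper

namespace Pool.Agent.P.MP_c18ddb_co.Old.Converges

open Pool.Agent.P.MP_c18ddb_co Filter Topology

/-- The sequence `M n / n^4` converges to a real number. -/
theorem result : ∃ L : ℝ, Tendsto (fun n : ℕ => (M n : ℝ) / (n : ℝ) ^ 4) atTop (𝓝 L) :=
  tendsto_ratio

end Pool.Agent.P.MP_c18ddb_co.Old.Converges
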