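import Pool.Agent.P.MP_c18ddb_co.Q.Sum
import Pool.Agent.P.MP_c18ddb_co.Q.CoreP

namespace Pool.Agent.P.MP_c18ddb_co.Old.Limit

open Pool.Agent.P.MP_c18ddb_co Filter Topology

/-- The sequence `M n / n^4` converges to `1/49`. -/
theorem result : Tendsto (fun n : ℕ => (M n : ℝ) / (n : ℝ) ^ 4) atTop (𝓝 (1 / 49)) :=
  Q.limit_of_core Q.core

end Pool.Agent.P.MP_c18ddb_co.Old.Limit
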