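import Pool.Agent.P.MP_c18ddb_co.Lower

namespace Pool.Agent.Old.MP_c18ddb_co.LowerBound

open Pool.Agent.P.MP_c18ddb_co

/-- For every `n`, `M n ≥ n^4/49 - (8/7) n^3`. -/
theorem result : ∀ n : ℕ, (n : ℝ) ^ 4 / 49 - 8 / 7 * (n : ℝ) ^ 3 ≤ (M n : ℝ) :=
  lower_M

end Pool.Agent.Old.MP_c18ddb_co.LowerBound
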